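import Pool.Agent.Helper75.Slab.Goals

/-!
# Packet V0B for MP_beb0a8_an (helper75): vorticity, divergence and energy density of v0
-/

set_option autoImplicit false

open Set MeasureTheory Filter Topology

namespace Pool.Agent.Helper89.Slab

open Pool.Agent.Helper75.Slab

/-! ### The profile -/

theorem prof_nonneg (q : ℝ) : 0 ≤ prof q := Real.smoothTransition.nonneg _
theorem prof_le_one (q : ℝ) : prof q ≤ 1 := Real.smoothTransition.le_one _
theorem prof_zero {q : ℝ} (h : 2 ≤ q) : prof q = 0 :=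
  Real.smoothTransition.zero_of_nonpos (by linarith)
theorem prof_one {q : ℝ} (h : q ≤ 1) : prof q = 1 :=
  Real.smoothTransition.one_of_one_le (by linarith)
theorem prof_anti : Antitone prof := fun a b h => Real.smoothTransition.monotone (by linarith)

theorem prof_contDiff {n : ℕ∞} : ContDiff ℝ n prof := by
  unfold prof
  exact Real.smoothTransition.contDiff.comp (contDiff_const.sub contDiff_id)

theorem prof_half {q : ℝ} (h : 3 / 2 ≤ q) : prof q ≤ 1 / 2 := by
  refine (prof_anti h).trans ?_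
  unfold prof Real.smoothTransition
  have h1 : (2 - 3 / 2 : ℝ) = 1 / 2 := by norm_num
  have h2 : (1 - 1 / 2 : ℝ) = 1 / 2 := by norm_num
  rw [h1, h2]
  have h3 : 0 < expNegInvGlue (1 / 2 : ℝ) := expNegInvGlue.pos_of_pos (by norm_num)
  rw [div_le_iff₀ (by linarith)]
  linarith

theorem prof_deriv_nonpos (q : ℝ) : deriv prof q ≤ 0 := prof_anti.deriv_nonpos

theorem prof_deriv_zero1 {q : ℝ} (h : q ≤ 1) : deriv prof q = 0 := by
  apply IsLocalMax.deriv_eq_zero
  filter_upwards with y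
  rw [prof_one h]
  exact prof_le_one y

theorem prof_deriv_zero2 {q : ℝ} (h : 2 ≤ q) : deriv prof q = 0 := by
  apply IsLocalMin.deriv_eq_zero
  filter_upwards with y
  rw [prof_zero h]
  exact prof_nonneg y

theorem prof_hasDerivAt (q : ℝ) : HasDerivAt prof (deriv prof q) q :=
  ((prof_contDiff (n := 1)).differentiable (by norm_num) q).hasDerivAt

theorem prof_deriv_bdd : ∃ C : ℝ, 0 ≤ C ∧ ∀ q, |deriv prof q| ≤ C := by
  have hc : Continuous (deriv prof) := (prof_contDiff (n := 1)).continuous_deriv (by norm_num)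
  obtain ⟨C, hC⟩ := (isCompact_Icc (a := (1 : ℝ)) (b := 2)).exists_bound_of_continuousOn
    hc.continuousOn
  refine ⟨max C 0, le_max_right _ _, ?_⟩
  intro q
  by_cases h1 : q ≤ 1
  · rw [prof_deriv_zero1 h1, abs_zero]; exact le_max_right _ _
  by_cases h2 : 2 ≤ q
  · rw [prof_deriv_zero2 h2, abs_zero]; exact le_max_right _ _
  push Not at h1 h2
  have := hC q ⟨h1.le, h2.le⟩
  rw [Real.norm_eq_abs] at this
  exact this.trans (le_max_left _ _)

/-! ### The local form -/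

/-- the local form of `v0` -/
noncomputable def W (σ : ℝ) (j : ℤ × ℤ) (y : E) : E :=
  ![20 - σ * (prof (dist2 j y) / 2 * (y 1 - 4 * j.2)),
    σ * (prof (dist2 j y) / 2 * (y 0 - 4 * j.1)), 0]

theorem round_of_abs {x : ℝ} {m : ℤ} (h : |x - 4 * m| < 2) : round (x / 4) = m := by
  rw [abs_lt] at h
  rw [round_eq, Int.floor_eq_iff]
  constructor <;> linarith [h.1, h.2]

theorem locA (j : ℤ × ℤ) (x : E) (h0 : |x 0 - 4 * j.1| < 2) (h1 : |x 1 - 4 * j.2| < 2) :
    (j ∈ sites → v0 =ᶠ[𝓝 x] W 1 j) ∧ (j ∉ sites → v0 =ᶠ[𝓝 x] W 0 j) := by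
  have e0 : ∀ᶠ y : E in 𝓝 x, |y 0 - 4 * j.1| < 2 := by
    have hc : Continuous fun y : E => |y 0 - 4 * (j.1 : ℝ)| := by fun_prop
    exact hc.continuousAt.eventually (gt_mem_nhds h0)
  have e1 : ∀ᶠ y : E in 𝓝 x, |y 1 - 4 * j.2| < 2 := by
    have hc : Continuous fun y : E => |y 1 - 4 * (j.2 : ℝ)| := by fun_prop
    exact hc.continuousAt.eventually (gt_mem_nhds h1)
  constructor
  · intro hj
    filter_upwards [e0, e1] with y hy0 hy1
    unfold v0 W
    rw [round_of_abs hy0, round_of_abs hy1, if_pos hj, one_mul, one_mul]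
    rfl
  · intro hj
    filter_upwards [e0, e1] with y hy0 hy1
    unfold v0 W
    rw [round_of_abs hy0, round_of_abs hy1, if_neg hj, zero_mul, zero_mul, sub_zero]

theorem v0_far (y : E) (h : 3 / 2 ≤ |y 0 - 4 * round (y 0 / 4)| ∨
    3 / 2 ≤ |y 1 - 4 * round (y 1 / 4)|) : v0 y = W 0 (0, 0) y := by
  have hq : prof ((y 0 - 4 * round (y 0 / 4)) ^ 2 + (y 1 - 4 * round (y 1 / 4)) ^ 2) = 0 := by
    apply prof_zero
    rcases h with h | h
    · have : (3 / 2 : ℝ) ^ 2 ≤ (y 0 - 4 * round (y 0 / 4)) ^ 2 := by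
        rw [← sq_abs (y 0 - 4 * round (y 0 / 4))]
        exact pow_le_pow_left₀ (by norm_num) h 2
      nlinarith [sq_nonneg (y 1 - 4 * (round (y 1 / 4) : ℝ))]
    · have : (3 / 2 : ℝ) ^ 2 ≤ (y 1 - 4 * round (y 1 / 4)) ^ 2 := by
        rw [← sq_abs (y 1 - 4 * round (y 1 / 4))]
        exact pow_le_pow_left₀ (by norm_num) h 2
      nlinarith [sq_nonneg (y 0 - 4 * (round (y 0 / 4) : ℝ))]
  unfold v0 W
  rw [hq]
  split_ifs
  · simp
  · simp

theorem far_of {a b : ℝ} (h : ¬ |a - 4 * round (a / 4)| < 2) (hab : |b - a| < 1 / 2) :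
    3 / 2 ≤ |b - 4 * round (b / 4)| := by
  push Not at h
  have h1 : |a / 4 - round (a / 4)| ≤ |a / 4 - (round (b / 4) : ℤ)| := round_le _ _
  have h2 : |a - 4 * round (a / 4)| = 4 * |a / 4 - round (a / 4)| := by
    rw [← abs_of_pos (show (0 : ℝ) < 4 by norm_num), ← abs_mul,
      abs_of_pos (show (0 : ℝ) < 4 by norm_num)]
    congr 1; ring
  have h3 : |a - 4 * round (b / 4)| = 4 * |a / 4 - (round (b / 4) : ℤ)| := by
    rw [← abs_of_pos (show (0 : ℝ) < 4 by norm_num), ← abs_mul,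
      abs_of_pos (show (0 : ℝ) < 4 by norm_num)]
    congr 1; ring
  have h4 : |a - 4 * round (b / 4)| ≤ |b - 4 * round (b / 4)| + |b - a| := by
    have := abs_add_le (b - 4 * round (b / 4)) (a - b)
    rw [abs_sub_comm a b] at this
    refine le_trans (le_of_eq ?_) this
    congr 1; ring
  linarith

theorem loc (x : E) : ∃ (σ : ℝ) (j : ℤ × ℤ), (σ = 0 ∨ (σ = 1 ∧ j ∈ sites)) ∧
    v0 =ᶠ[𝓝 x] W σ j := by
  by_cases h0 : |x 0 - 4 * round (x 0 / 4)| < 2
  · by_cases h1 : |x 1 - 4 * round (x 1 / 4)| < 2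
    · by_cases hj : (round (x 0 / 4), round (x 1 / 4)) ∈ sites
      · exact ⟨1, _, Or.inr ⟨rfl, hj⟩, (locA (round (x 0 / 4), round (x 1 / 4)) x h0 h1).1 hj⟩
      · exact ⟨0, _, Or.inl rfl, (locA (round (x 0 / 4), round (x 1 / 4)) x h0 h1).2 hj⟩
    · refine ⟨0, (0, 0), Or.inl rfl, ?_⟩
      have e1 : ∀ᶠ y : E in 𝓝 x, |y 1 - x 1| < 1 / 2 := by
        have hc : Continuous fun y : E => |y 1 - x 1| := by fun_prop
        exact hc.continuousAt.eventually (gt_mem_nhds (by simp))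
      filter_upwards [e1] with y hy
      exact v0_far y (Or.inr (far_of h1 hy))
  · refine ⟨0, (0, 0), Or.inl rfl, ?_⟩
    have e1 : ∀ᶠ y : E in 𝓝 x, |y 0 - x 0| < 1 / 2 := by
      have hc : Continuous fun y : E => |y 0 - x 0| := by fun_prop
      exact hc.continuousAt.eventually (gt_mem_nhds (by simp))
    filter_upwards [e1] with y hy
    exact v0_far y (Or.inl (far_of h0 hy))

/-! ### Derivatives of the local form -/

noncomputable def p0 : E →L[ℝ] ℝ := ContinuousLinearMap.proj 0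
noncomputable def p1 : E →L[ℝ] ℝ := ContinuousLinearMap.proj 1

theorem hasFDerivAt_c0 (x : E) : HasFDerivAt (fun y : E => y 0) p0 x :=
  (ContinuousLinearMap.proj (R := ℝ) (φ := fun _ : Fin 3 => ℝ) 0).hasFDerivAt

theorem hasFDerivAt_c1 (x : E) : HasFDerivAt (fun y : E => y 1) p1 x :=
  (ContinuousLinearMap.proj (R := ℝ) (φ := fun _ : Fin 3 => ℝ) 1).hasFDerivAt

theorem hasFDerivAt_dist2 (j : ℤ × ℤ) (x : E) : HasFDerivAt (dist2 j)
    ((2 * (x 0 - 4 * j.1)) • p0 + (2 * (x 1 - 4 * j.2)) • p1) x := by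
  have h0 := ((hasFDerivAt_c0 x).sub_const (4 * (j.1 : ℝ))).pow 2
  have h1 := ((hasFDerivAt_c1 x).sub_const (4 * (j.2 : ℝ))).pow 2
  have h : HasFDerivAt (dist2 j) _ x := h0.add h1
  refine h.congr_fderiv ?_
  simp

theorem hasFDerivAt_S (j : ℤ × ℤ) (x : E) : HasFDerivAt (fun y => prof (dist2 j y))
    (deriv prof (dist2 j x) • ((2 * (x 0 - 4 * j.1)) • p0 + (2 * (x 1 - 4 * j.2)) • p1)) x :=
  (prof_hasDerivAt (dist2 j x)).comp_hasFDerivAt x (hasFDerivAt_dist2 j x)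

/-- partial derivatives of the components of `W` -/
theorem hasFDerivAt_W0 (σ : ℝ) (j : ℤ × ℤ) (x : E) : HasFDerivAt (fun y => W σ j y 0)
    (-(σ • ((prof (dist2 j x) / 2) • p1 + ((x 1 - 4 * j.2) / 2) •
      (deriv prof (dist2 j x) • ((2 * (x 0 - 4 * j.1)) • p0 + (2 * (x 1 - 4 * j.2)) • p1))))) x := by
  have h1 := ((hasFDerivAt_S j x).mul_const (1 / 2 : ℝ)).mul
    ((hasFDerivAt_c1 x).sub_const (4 * (j.2 : ℝ)))
  have h2 := (h1.const_mul σ).const_sub 20
  have he : (fun y => W σ j y 0) = fun y : E => 20 - σ * (prof (dist2 j y) * (1 / 2) *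
      (y 1 - 4 * (j.2 : ℝ))) := by
    funext y
    unfold W
    simp only [Matrix.cons_val_zero]
    ring
  rw [he]
  refine h2.congr_fderiv ?_
  ext v
  simp
  ring

theorem hasFDerivAt_W1 (σ : ℝ) (j : ℤ × ℤ) (x : E) : HasFDerivAt (fun y => W σ j y 1)
    (σ • ((prof (dist2 j x) / 2) • p0 + ((x 0 - 4 * j.1) / 2) •
      (deriv prof (dist2 j x) • ((2 * (x 0 - 4 * j.1)) • p0 + (2 * (x 1 - 4 * j.2)) • p1)))) x := by
  have h1 := ((hasFDerivAt_S j x).mul_const (1 / 2 : ℝ)).mul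
    ((hasFDerivAt_c0 x).sub_const (4 * (j.1 : ℝ)))
  have h2 := h1.const_mul σ
  have he : (fun y => W σ j y 1) = fun y : E => σ * (prof (dist2 j y) * (1 / 2) *
      (y 0 - 4 * (j.1 : ℝ))) := by
    funext y
    unfold W
    simp only [Matrix.cons_val_one, Matrix.cons_val_zero]
    ring
  rw [he]
  refine h2.congr_fderiv ?_
  ext v
  simp
  ring

theorem hasFDerivAt_W2 (σ : ℝ) (j : ℤ × ℤ) (x : E) : HasFDerivAt (fun y => W σ j y 2)
    (0 : E →L[ℝ] ℝ) x := by
  have he : (fun y => W σ j y 2) = fun y : E => (0 : ℝ) := by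
    funext y
    unfold W
    simp
  rw [he]
  exact hasFDerivAt_const _ _

/-! ### Partial derivatives on the slab -/

theorem M_uniqueDiff : UniqueDiffOn ℝ M := by
  apply uniqueDiffOn_convex
  · intro x hx y hy a b ha hb hab
    have hx' : 0 ≤ x 2 ∧ x 2 ≤ 1 := hx
    have hy' : 0 ≤ y 2 ∧ y 2 ≤ 1 := hy
    change 0 ≤ (a • x + b • y) 2 ∧ (a • x + b • y) 2 ≤ 1
    simp only [Pi.add_apply, Pi.smul_apply, smul_eq_mul]
    constructor
    · nlinarith [mul_nonneg ha hx'.1, mul_nonneg hb hy'.1]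
    · nlinarith [mul_le_mul_of_nonneg_left hx'.2 ha, mul_le_mul_of_nonneg_left hy'.2 hb]
  · refine ⟨fun _ => 1 / 2, ?_⟩
    have hO : IsOpen {x : E | 0 < x 2 ∧ x 2 < 1} :=
      (isOpen_lt continuous_const (continuous_apply 2)).inter
        (isOpen_lt (continuous_apply 2) continuous_const)
    apply interior_maximal _ hO
    · change (0 : ℝ) < 1 / 2 ∧ (1 / 2 : ℝ) < 1
      norm_num
    · rintro x ⟨h1, h2⟩
      exact ⟨h1.le, h2.le⟩

theorem pd_eq {f : E → ℝ} {L : E →L[ℝ] ℝ} {x : E} (hx : x ∈ M) (h : HasFDerivAt f L x)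
    (i : Fin 3) : pd i f x = L (Pi.single i 1) := by
  unfold pd
  rw [h.hasFDerivWithinAt.fderivWithin (M_uniqueDiff x hx)]

theorem comp_eq {σ : ℝ} {j : ℤ × ℤ} {x : E} (h : v0 =ᶠ[𝓝 x] W σ j) (k : Fin 3) :
    (fun z => v0 z k) =ᶠ[𝓝 x] fun z => W σ j z k := by
  filter_upwards [h] with y hy
  rw [hy]

/-- the table of the partial derivatives -/
theorem table {σ : ℝ} {j : ℤ × ℤ} {x : E} (hx : x ∈ M) (h : v0 =ᶠ[𝓝 x] W σ j) :
    (pd 0 (fun z => v0 z 0) x =
      -(σ * (deriv prof (dist2 j x) * ((x 0 - 4 * j.1) * (x 1 - 4 * j.2))))) ∧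
    (pd 1 (fun z => v0 z 0) x =
      -(σ * (prof (dist2 j x) / 2 + deriv prof (dist2 j x) * (x 1 - 4 * j.2) ^ 2))) ∧
    (pd 2 (fun z => v0 z 0) x = 0) ∧
    (pd 0 (fun z => v0 z 1) x =
      σ * (prof (dist2 j x) / 2 + deriv prof (dist2 j x) * (x 0 - 4 * j.1) ^ 2)) ∧
    (pd 1 (fun z => v0 z 1) x =
      σ * (deriv prof (dist2 j x) * ((x 0 - 4 * j.1) * (x 1 - 4 * j.2)))) ∧
    (pd 2 (fun z => v0 z 1) x = 0) ∧
    (∀ i, pd i (fun z => v0 z 2) x = 0) := by
  have g0 := (hasFDerivAt_W0 σ j x).congr_of_eventuallyEq (comp_eq h 0)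
  have g1 := (hasFDerivAt_W1 σ j x).congr_of_eventuallyEq (comp_eq h 1)
  have g2 := (hasFDerivAt_W2 σ j x).congr_of_eventuallyEq (comp_eq h 2)
  have e00 : p0 (Pi.single 0 1) = 1 := by simp [p0]
  have e01 : p0 (Pi.single 1 1) = 0 := by simp [p0]
  have e02 : p0 (Pi.single 2 1) = 0 := by simp [p0]
  have e10 : p1 (Pi.single 0 1) = 0 := by simp [p1]
  have e11 : p1 (Pi.single 1 1) = 1 := by simp [p1]
  have e12 : p1 (Pi.single 2 1) = 0 := by simp [p1]
  refine ⟨?_, ?_, ?_, ?_, ?_, ?_, ?_⟩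
  · rw [pd_eq hx g0]
    simp only [neg_apply, smul_apply,
      add_apply, smul_eq_mul, e00, e10]
    ring
  · rw [pd_eq hx g0]
    simp only [neg_apply, smul_apply,
      add_apply, smul_eq_mul, e01, e11]
    ring
  · rw [pd_eq hx g0]
    simp only [neg_apply, smul_apply,
      add_apply, smul_eq_mul, e02, e12]
    ring
  · rw [pd_eq hx g1]
    simp only [smul_apply,
      add_apply, smul_eq_mul, e00, e10]
    ring
  · rw [pd_eq hx g1]
    simp only [smul_apply,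
      add_apply, smul_eq_mul, e01, e11]
    ring
  · rw [pd_eq hx g1]
    simp only [smul_apply,
      add_apply, smul_eq_mul, e02, e12]
    ring
  · intro i
    rw [pd_eq hx g2]
    simp

/-! ### Smoothness -/

theorem W_contDiff (σ : ℝ) (j : ℤ × ℤ) (k : Fin 3) : ContDiff ℝ 1 (fun y => W σ j y k) := by
  have hd : ContDiff ℝ 1 (fun y : E => dist2 j y) := by
    unfold dist2
    fun_prop
  have hS : ContDiff ℝ 1 (fun y : E => prof (dist2 j y)) := (prof_contDiff (n := 1)).comp hd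
  fin_cases k
  · have he : (fun y => W σ j y 0) = fun y : E => 20 - σ * (prof (dist2 j y) / 2 *
        (y 1 - 4 * (j.2 : ℝ))) := by
      funext y; unfold W; simp only [Matrix.cons_val_zero]
    change ContDiff ℝ 1 (fun y => W σ j y 0)
    rw [he]
    fun_prop
  · have he : (fun y => W σ j y 1) = fun y : E => σ * (prof (dist2 j y) / 2 *
        (y 0 - 4 * (j.1 : ℝ))) := by
      funext y; unfold W; simp only [Matrix.cons_val_one, Matrix.cons_val_zero]
    change ContDiff ℝ 1 (fun y => W σ j y 1)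
    rw [he]
    fun_prop
  · have he : (fun y => W σ j y 2) = fun y : E => (0 : ℝ) := by
      funext y; unfold W; simp
    change ContDiff ℝ 1 (fun y => W σ j y 2)
    rw [he]
    fun_prop

theorem v0_contDiff (k : Fin 3) : ContDiff ℝ 1 (fun y => v0 y k) := by
  rw [contDiff_iff_contDiffAt]
  intro x
  obtain ⟨σ, j, -, h⟩ := loc x
  exact (W_contDiff σ j k).contDiffAt.congr_of_eventuallyEq (comp_eq h k)

theorem pd_continuousOn (k i : Fin 3) : ContinuousOn (pd i (fun z => v0 z k)) M := by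
  have h1 : Continuous (fderiv ℝ (fun y => v0 y k)) :=
    (v0_contDiff k).continuous_fderiv (by norm_num)
  have h2 : Continuous (fun x => fderiv ℝ (fun y => v0 y k) x (Pi.single i 1)) :=
    h1.clm_apply continuous_const
  refine h2.continuousOn.congr ?_
  intro x hx
  exact pd_eq hx (((v0_contDiff k).differentiable (by norm_num) x).hasFDerivAt) i

theorem dist2_sq (j : ℤ × ℤ) (x : E) :
    dist2 j x = (x 0 - 4 * j.1) ^ 2 + (x 1 - 4 * j.2) ^ 2 := rfl

/-- bounds for the local form -/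
theorem bounds {σ : ℝ} {j : ℤ × ℤ} {x : E} {C : ℝ} (hC0 : 0 ≤ C)
    (hC : ∀ q, |deriv prof q| ≤ C) (hσ : σ = 0 ∨ σ = 1) :
    |σ * (prof (dist2 j x) / 2 * (x 1 - 4 * j.2))| ≤ 1 ∧
    |σ * (prof (dist2 j x) / 2 * (x 0 - 4 * j.1))| ≤ 1 ∧
    |σ * (deriv prof (dist2 j x) * ((x 0 - 4 * j.1) * (x 1 - 4 * j.2)))| ≤ 1 + 2 * C ∧
    |σ * (prof (dist2 j x) / 2 + deriv prof (dist2 j x) * (x 1 - 4 * j.2) ^ 2)| ≤ 1 + 2 * C ∧
    |σ * (prof (dist2 j x) / 2 + deriv prof (dist2 j x) * (x 0 - 4 * j.1) ^ 2)| ≤ 1 + 2 * C := by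
  rcases hσ with hσ | hσ
  · subst hσ
    simp only [zero_mul, abs_zero]
    refine ⟨by norm_num, by norm_num, by linarith, by linarith, by linarith⟩
  subst hσ
  simp only [one_mul]
  set a : ℝ := x 0 - 4 * j.1 with ha
  set b : ℝ := x 1 - 4 * j.2 with hb
  have hq : dist2 j x = a ^ 2 + b ^ 2 := rfl
  by_cases h2 : 2 ≤ dist2 j x
  · rw [prof_zero h2, prof_deriv_zero2 h2]
    simp only [zero_div, zero_mul, add_zero, abs_zero]
    refine ⟨by norm_num, by norm_num, by linarith, by linarith, by linarith⟩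
  push Not at h2
  rw [hq] at h2 ⊢
  have hS0 := prof_nonneg (a ^ 2 + b ^ 2)
  have hS1 := prof_le_one (a ^ 2 + b ^ 2)
  have hD := hC (a ^ 2 + b ^ 2)
  have ha2 : |a| ≤ 2 := abs_le_of_sq_le_sq (by nlinarith [sq_nonneg b]) (by norm_num)
  have hb2 : |b| ≤ 2 := abs_le_of_sq_le_sq (by nlinarith [sq_nonneg a]) (by norm_num)
  have hab : |a * b| ≤ 2 := by
    rw [abs_le]
    constructor
    · nlinarith [sq_nonneg (a + b)]
    · nlinarith [sq_nonneg (a - b)]
  have hSh : |prof (a ^ 2 + b ^ 2) / 2| ≤ 1 / 2 := by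
    rw [abs_of_nonneg (by linarith)]; linarith
  refine ⟨?_, ?_, ?_, ?_, ?_⟩
  · rw [abs_mul]
    calc |prof (a ^ 2 + b ^ 2) / 2| * |b| ≤ 1 / 2 * 2 :=
          mul_le_mul hSh hb2 (abs_nonneg _) (by norm_num)
      _ = 1 := by norm_num
  · rw [abs_mul]
    calc |prof (a ^ 2 + b ^ 2) / 2| * |a| ≤ 1 / 2 * 2 :=
          mul_le_mul hSh ha2 (abs_nonneg _) (by norm_num)
      _ = 1 := by norm_num
  · rw [abs_mul]
    calc |deriv prof (a ^ 2 + b ^ 2)| * |a * b| ≤ C * 2 :=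
          mul_le_mul hD hab (abs_nonneg _) hC0
      _ ≤ 1 + 2 * C := by linarith
  · have h5 : |deriv prof (a ^ 2 + b ^ 2) * b ^ 2| ≤ C * 2 := by
      rw [abs_mul, abs_of_nonneg (sq_nonneg b)]
      exact mul_le_mul hD (by nlinarith [sq_nonneg a]) (sq_nonneg b) hC0
    have := abs_add_le (prof (a ^ 2 + b ^ 2) / 2) (deriv prof (a ^ 2 + b ^ 2) * b ^ 2)
    linarith
  · have h5 : |deriv prof (a ^ 2 + b ^ 2) * a ^ 2| ≤ C * 2 := by
      rw [abs_mul, abs_of_nonneg (sq_nonneg a)]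
      exact mul_le_mul hD (by nlinarith [sq_nonneg b]) (sq_nonneg a) hC0
    have := abs_add_le (prof (a ^ 2 + b ^ 2) / 2) (deriv prof (a ^ 2 + b ^ 2) * a ^ 2)
    linarith

theorem W_val (σ : ℝ) (j : ℤ × ℤ) (x : E) :
    W σ j x 0 = 20 - σ * (prof (dist2 j x) / 2 * (x 1 - 4 * j.2)) ∧
    W σ j x 1 = σ * (prof (dist2 j x) / 2 * (x 0 - 4 * j.1)) ∧ W σ j x 2 = 0 := by
  refine ⟨?_, ?_, ?_⟩ <;> simp [W]

theorem pd_zero (j : Fin 3) (i : Fin 3) (x : E) : pd j (fun z => (0 : E → E) z i) x = 0 := by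
  unfold pd
  have : (fun z : E => (0 : E → E) z i) = fun _ => (0 : ℝ) := by
    funext z; rfl
  rw [this]
  simp

theorem thm : G_V0B := by
  refine ⟨⟨fun i => (v0_contDiff i).contDiffOn, ?_, ?_, ?_⟩, ?_, ?_, ?_, ?_, ?_⟩
  · obtain ⟨C, hC0, hC⟩ := prof_deriv_bdd
    refine ⟨21 + 2 * C, ?_⟩
    intro i x hx
    obtain ⟨σ, j, hσ, hloc⟩ := loc x
    have hσ' : σ = 0 ∨ σ = 1 := by
      rcases hσ with h | h
      · exact Or.inl h
      · exact Or.inr h.1
    obtain ⟨b1, b2, b3, b4, b5⟩ := bounds (σ := σ) (j := j) (x := x) hC0 hC hσ'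
    obtain ⟨t00, t10, t20, t01, t11, t21, t2⟩ := table hx hloc
    obtain ⟨w0, w1, w2⟩ := W_val σ j x
    have hv : v0 x = W σ j x := hloc.self_of_nhds
    constructor
    · rw [hv]
      fin_cases i
      · change |W σ j x 0 - 0| ≤ _
        rw [w0, sub_zero]
        have := abs_sub (20 : ℝ) (σ * (prof (dist2 j x) / 2 * (x 1 - 4 * j.2)))
        rw [abs_of_pos (show (0 : ℝ) < 20 by norm_num)] at this
        linarith
      · change |W σ j x 1 - 0| ≤ _
        rw [w1, sub_zero]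
        linarith
      · change |W σ j x 2 - 0| ≤ _
        rw [w2, sub_zero, abs_zero]
        linarith
    · intro k
      rw [pd_zero, sub_zero]
      fin_cases i
      · fin_cases k
        · change |pd 0 (fun z => v0 z 0) x| ≤ _
          rw [t00, abs_neg]; linarith
        · change |pd 1 (fun z => v0 z 0) x| ≤ _
          rw [t10, abs_neg]; linarith
        · change |pd 2 (fun z => v0 z 0) x| ≤ _
          rw [t20, abs_zero]; linarith
      · fin_cases k
        · change |pd 0 (fun z => v0 z 1) x| ≤ _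
          rw [t01]; linarith
        · change |pd 1 (fun z => v0 z 1) x| ≤ _
          rw [t11]; linarith
        · change |pd 2 (fun z => v0 z 1) x| ≤ _
          rw [t21, abs_zero]; linarith
      · change |pd k (fun z => v0 z 2) x| ≤ _
        rw [t2, abs_zero]; linarith
  · intro x hx
    obtain ⟨σ, j, -, hloc⟩ := loc x
    obtain ⟨t00, -, -, -, t11, -, t2⟩ := table hx hloc
    rw [Fin.sum_univ_three, t00, t11, t2]
    ring
  · intro x _ _
    obtain ⟨σ, j, -, hloc⟩ := loc x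
    have hv : v0 x = W σ j x := hloc.self_of_nhds
    rw [hv, (W_val σ j x).2.2]
  · unfold curl
    apply continuousOn_pi.mpr
    intro i
    fin_cases i
    · exact (pd_continuousOn 2 1).sub (pd_continuousOn 1 2)
    · exact (pd_continuousOn 0 2).sub (pd_continuousOn 2 0)
    · exact (pd_continuousOn 1 0).sub (pd_continuousOn 0 1)
  · intro x hx
    obtain ⟨σ, j, -, hloc⟩ := loc x
    obtain ⟨-, -, t20, -, -, t21, t2⟩ := table hx hloc
    constructor
    · change pd 1 (fun z => v0 z 2) x - pd 2 (fun z => v0 z 1) x = 0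
      rw [t2, t21, sub_zero]
    · change pd 2 (fun z => v0 z 0) x - pd 0 (fun z => v0 z 2) x = 0
      rw [t2, t20, sub_zero]
  · intro x hx j hj hd
    have h0 : |x 0 - 4 * j.1| < 2 := by
      have h1 : (x 0 - 4 * j.1) ^ 2 ≤ 1 := by
        have := dist2_sq j x
        nlinarith [sq_nonneg (x 1 - 4 * (j.2 : ℝ))]
      have h2 : |x 0 - 4 * j.1| ≤ 1 := abs_le_of_sq_le_sq (by linarith) (by norm_num)
      linarith
    have h1 : |x 1 - 4 * j.2| < 2 := by
      have h1 : (x 1 - 4 * j.2) ^ 2 ≤ 1 := by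
        have := dist2_sq j x
        nlinarith [sq_nonneg (x 0 - 4 * (j.1 : ℝ))]
      have h2 : |x 1 - 4 * j.2| ≤ 1 := abs_le_of_sq_le_sq (by linarith) (by norm_num)
      linarith
    have hloc := (locA j x h0 h1).1 hj
    obtain ⟨-, t10, -, t01, -, -, -⟩ := table hx hloc
    change pd 0 (fun z => v0 z 1) x - pd 1 (fun z => v0 z 0) x = 1
    rw [t10, t01, prof_one hd, prof_deriv_zero1 hd]
    ring
  · intro x hx hfar
    obtain ⟨σ, j, hσ, hloc⟩ := loc x
    obtain ⟨-, t10, -, t01, -, -, -⟩ := table hx hloc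
    change pd 0 (fun z => v0 z 1) x - pd 1 (fun z => v0 z 0) x ≤ 1 / 2
    rw [t10, t01]
    rcases hσ with hσ | ⟨hσ, hj⟩
    · rw [hσ]; norm_num
    · rw [hσ]
      have h1 := prof_half (hfar j hj)
      have h2 := prof_deriv_nonpos (dist2 j x)
      have h3 : deriv prof (dist2 j x) * ((x 0 - 4 * j.1) ^ 2 + (x 1 - 4 * j.2) ^ 2) ≤ 0 :=
        mul_nonpos_of_nonpos_of_nonneg h2 (by positivity)
      nlinarith
  · intro x _
    obtain ⟨σ, j, hσ, hloc⟩ := loc x
    have hv : v0 x = W σ j x := hloc.self_of_nhds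
    obtain ⟨w0, w1, w2⟩ := W_val σ j x
    refine ⟨by rw [hv, w2], ?_⟩
    unfold en
    rw [hv, w0, w1, w2]
    have hσ2 : σ ^ 2 ≤ 1 := by
      rcases hσ with hσ | ⟨hσ, -⟩ <;> rw [hσ] <;> norm_num
    have hS0 := prof_nonneg (dist2 j x)
    have hS1 := prof_le_one (dist2 j x)
    have he : (20 - σ * (prof (dist2 j x) / 2 * (x 1 - 4 * j.2)) - 20) ^ 2 +
        (σ * (prof (dist2 j x) / 2 * (x 0 - 4 * j.1))) ^ 2 + 0 ^ 2 =
        σ ^ 2 * ((prof (dist2 j x)) ^ 2 * dist2 j x / 4) := by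
      rw [show dist2 j x = (x 0 - 4 * j.1) ^ 2 + (x 1 - 4 * j.2) ^ 2 from rfl]
      ring
    rw [he]
    have hd0 : 0 ≤ dist2 j x := by rw [dist2_sq]; positivity
    have h4 : (prof (dist2 j x)) ^ 2 * dist2 j x / 4 ≤ 1 / 2 := by
      by_cases h2 : 2 ≤ dist2 j x
      · rw [prof_zero h2]; norm_num
      · push Not at h2
        have : (prof (dist2 j x)) ^ 2 ≤ 1 := pow_le_one₀ hS0 hS1
        nlinarith
    have h5 : 0 ≤ (prof (dist2 j x)) ^ 2 * dist2 j x / 4 := by positivity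
    nlinarith

end Pool.Agent.Helper89.Slab
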